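import Mathlib

set_option autoImplicit false

namespace Pool.Agent.Results.MP_b7d0e6_al.Counterexample

section defs

variable (O : Type) [CommRing O]

/-- ordered bases of `O ^ 2`: pairs of vectors whose determinant is a unit -/
def Bas : Type := {p : (O × O) × (O × O) // IsUnit (p.1.1 * p.2.2 - p.1.2 * p.2.1)}

/-- the relations 1, 2, 3 defining `Byk 2` -/
def Rel : AddSubgroup (FreeAbelianGroup (Bas O)) := AddSubgroup.closure
  ({x | ∃ p q : Bas O, q.1 = (p.1.2, p.1.1) ∧ x = .of p + .of q} ∪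
   {x | ∃ (p q : Bas O) (u : Oˣ), q.1 = ((u : O) • p.1.1, p.1.2) ∧ x = .of p - .of q} ∪
   {x | ∃ p q r : Bas O, q.1 = (p.1.1 + p.1.2, p.1.2) ∧ r.1 = (p.1.1 + p.1.2, p.1.1) ∧
     x = .of p - .of q + .of r})

/-- the line of `K ^ 2` spanned by `v`, with `K` the fraction field -/
noncomputable def line (v : O × O) : Submodule (FractionRing O) (FractionRing O × FractionRing O) :=
  Submodule.span (FractionRing O) {(algebraMap O _ v.1, algebraMap O _ v.2)}

/-- the apartment class of a basis, a reduced `0`-cycle on the set of lines -/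
noncomputable def apt : FreeAbelianGroup (Bas O) →+
    (Submodule (FractionRing O) (FractionRing O × FractionRing O) →₀ ℤ) :=
  FreeAbelianGroup.lift fun p => Finsupp.single (line O p.1.2) 1 - Finsupp.single (line O p.1.1) 1

end defs

open Classical in
noncomputable def ep (a b : ℝ) : ℤ := if 0 < b ∨ (b = 0 ∧ 0 < a) then 1 else -1

open Classical in
noncomputable def sn (d : ℝ) : ℤ := if 0 < d then 1 else -1

lemma sn_neg {d : ℝ} (h : d ≠ 0) : sn (-d) = -sn d := by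
  unfold sn
  rcases h.lt_or_gt with h | h
  · rw [if_pos (by linarith), if_neg (by linarith)]; rfl
  · rw [if_neg (by linarith), if_pos h]

lemma sn_mul {u d : ℝ} (hu : 0 < u) : sn (u * d) = sn d := by
  unfold sn; simp only [mul_pos_iff_of_pos_left hu]

lemma ep_mul {u : ℝ} (a b : ℝ) (hu : 0 < u) : ep (u * a) (u * b) = ep a b := by
  unfold ep; simp only [mul_pos_iff_of_pos_left hu, mul_eq_zero, hu.ne', false_or]

lemma ep_neg {a b : ℝ} (h : a ≠ 0 ∨ b ≠ 0) : ep (-a) (-b) = -ep a b := by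
  unfold ep
  split_ifs with h1 h2 h2
  · exfalso; rcases h1 with h1 | ⟨h1, h3⟩ <;> rcases h2 with h2 | ⟨h2, h4⟩ <;> linarith
  · rfl
  · rfl
  · exfalso
    push Not at h1 h2
    have hb : b = 0 := by linarith [h1.1, h2.1]
    have := h1.2 (by simp [hb])
    have := h2.2 hb
    rcases h with h | h
    · exact h (by linarith)
    · exact h hb

lemma ep_add (a b c d : ℝ) :
    ep a b * ep c d - ep (a + c) (b + d) * ep c d - ep (a + c) (b + d) * ep a b = -1 := by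
  unfold ep
  split_ifs with h1 h2 h3 h3 h2 h3 h3 <;> try norm_num
  · apply h3
    rcases h1 with h1 | ⟨h1, h4⟩ <;> rcases h2 with h2 | ⟨h2, h5⟩
    · left; linarith
    · left; linarith
    · left; linarith
    · right; constructor <;> linarith
  · push Not at h1 h2
    rcases h3 with h3 | ⟨h3, h4⟩
    · linarith [h1.1, h2.1]
    · linarith [h1.2 (by linarith [h1.1, h2.1]), h2.2 (by linarith [h1.1, h2.1])]

noncomputable def s {O : Type} [CommRing O] (σ : O →+* ℝ) (p : (O × O) × (O × O)) : ℤ :=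
  ep (σ p.1.1) (σ p.1.2) * ep (σ p.2.1) (σ p.2.2) * sn (σ (p.1.1 * p.2.2 - p.1.2 * p.2.1))

lemma s_swap {O : Type} [CommRing O] (σ : O →+* ℝ) (p : Bas O) :
    s σ (p.1.2, p.1.1) = -s σ p.1 := by
  have := sn_neg (p.2.map σ).ne_zero
  rw [← map_neg] at this
  unfold s
  rw [show p.1.2.1 * p.1.1.2 - p.1.2.2 * p.1.1.1 = -(p.1.1.1 * p.1.2.2 - p.1.1.2 * p.1.2.1) by
    ring, this]
  ring

lemma s_unit {O : Type} [CommRing O] (σ : O →+* ℝ) (p : Bas O) (u : Oˣ) :
    s σ ((u : O) • p.1.1, p.1.2) = s σ p.1 := by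
  have hd := (p.2.map σ).ne_zero
  have hv : σ p.1.1.1 ≠ 0 ∨ σ p.1.1.2 ≠ 0 := by
    by_contra e
    push Not at e
    exact hd (by simp [e])
  unfold s
  simp only [Prod.smul_fst, Prod.smul_snd, smul_eq_mul]
  rw [show u * p.1.1.1 * p.1.2.2 - u * p.1.1.2 * p.1.2.1 =
    u * (p.1.1.1 * p.1.2.2 - p.1.1.2 * p.1.2.1) by ring, map_mul σ (u : O), map_mul σ (u : O),
    map_mul σ (u : O)]
  rcases (u.isUnit.map σ).ne_zero.lt_or_gt with h | h
  · have h' : 0 < -σ u := by linarith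
    rw [← neg_mul_neg (σ u) (σ p.1.1.1), ← neg_mul_neg (σ u) (σ p.1.1.2), ← neg_mul_neg (σ u) (σ (_ - _)),
      ep_mul _ _ h', sn_mul h', ep_neg hv, sn_neg hd]
    ring
  · rw [ep_mul _ _ h, sn_mul h]

lemma s_tri {O : Type} [CommRing O] (σ : O →+* ℝ) (p : Bas O) :
    s σ p.1 - s σ (p.1.1 + p.1.2, p.1.2) + s σ (p.1.1 + p.1.2, p.1.1) =
      -sn (σ (p.1.1.1 * p.1.2.2 - p.1.1.2 * p.1.2.1)) := by
  have := sn_neg (p.2.map σ).ne_zero
  rw [← map_neg] at this
  unfold s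
  simp only [Prod.fst_add, Prod.snd_add]
  rw [show (p.1.1.1 + p.1.2.1) * p.1.2.2 - (p.1.1.2 + p.1.2.2) * p.1.2.1 =
      p.1.1.1 * p.1.2.2 - p.1.1.2 * p.1.2.1 by ring,
    show (p.1.1.1 + p.1.2.1) * p.1.1.2 - (p.1.1.2 + p.1.2.2) * p.1.1.1 =
      -(p.1.1.1 * p.1.2.2 - p.1.1.2 * p.1.2.1) by ring, this, map_add, map_add]
  linear_combination sn (σ (p.1.1.1 * p.1.2.2 - p.1.1.2 * p.1.2.1)) *
    ep_add (σ p.1.1.1) (σ p.1.1.2) (σ p.1.2.1) (σ p.1.2.2)

noncomputable def s1 : ℤ√3 →+* ℝ := Zsqrtd.toReal (by norm_num)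
noncomputable def s2 : ℤ√3 →+* ℝ := s1.comp (starRingEnd _)

lemma same {d : ℤ√3} (h : IsUnit d) : sn (s1 d) = sn (s2 d) := by
  have h1 : d.norm = 1 := by
    rcases Int.isUnit_iff.1 ((Zsqrtd.isUnit_iff_norm_isUnit d).1 h) with e | e
    · exact e
    · exfalso
      rw [Zsqrtd.norm_def] at e
      have := congrArg (Int.cast : ℤ → ZMod 3) e
      push_cast at this
      generalize (d.re : ZMod 3) = a at this
      generalize (d.im : ZMod 3) = b at this
      revert a b; decide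
  have h2 : s1 d * s2 d = 1 := by
    have := congrArg s1 (Zsqrtd.norm_eq_mul_conj d)
    rw [h1, map_mul] at this
    simpa [s2, starRingEnd_apply] using this.symm
  unfold sn
  have : 0 < s1 d ↔ 0 < s2 d := pos_iff_pos_of_mul_pos (by rw [h2]; exact one_pos)
  simp only [this]

lemma rnd (x n : ℤ) (hn : n ≠ 0) : ∃ m, 4 * (x - n * m) ^ 2 ≤ n ^ 2 := by
  have h1 := Int.emod_nonneg x hn
  have h2 := Int.emod_lt_abs x hn
  have h3 := Int.emod_add_mul_ediv x n
  have h4 := sq_abs n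
  by_cases e : 2 * (x % n) ≤ |n|
  · exact ⟨x / n, by rw [show x - n * (x / n) = x % n by linarith]; nlinarith⟩
  · refine ⟨x / n + n.sign, ?_⟩
    rw [show x - n * (x / n + n.sign) = x % n - |n| by
      have : n * n.sign = |n| := by rw [Int.mul_sign_self, Int.natCast_natAbs]
      linarith]
    nlinarith

lemma euc (a b : ℤ√3) (hb : b ≠ 0) :
    ∃ q r, a = b * q + r ∧ r.norm.natAbs < b.norm.natAbs := by
  have hn : b.norm ≠ 0 := fun e => hb ((Zsqrtd.norm_eq_zero (by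
    intro n h
    have : n ≤ 1 ∨ 2 ≤ n := by omega
    have : -1 ≤ n ∨ n ≤ -2 := by omega
    rcases ‹n ≤ 1 ∨ _› with h1 | h1 <;> rcases this with h2 | h2 <;> nlinarith) b).1 e)
  obtain ⟨m, hm⟩ := rnd (a * star b).re _ hn
  obtain ⟨k, hk⟩ := rnd (a * star b).im _ hn
  refine ⟨⟨m, k⟩, a - b * ⟨m, k⟩, by ring, ?_⟩
  have e : (a - b * ⟨m, k⟩).norm * b.norm =
      ((a * star b).re - b.norm * m) ^ 2 - 3 * ((a * star b).im - b.norm * k) ^ 2 := by
    simp [Zsqrtd.norm_def]; ring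
  have p : 0 < b.norm ^ 2 := by positivity
  have l : |(a - b * ⟨m, k⟩).norm| * |b.norm| < |b.norm| * |b.norm| := by
    rw [← abs_mul, e, abs_mul_abs_self, abs_lt]
    constructor <;> nlinarith [sq_nonneg ((a * star b).re - b.norm * m),
      sq_nonneg ((a * star b).im - b.norm * k)]
  have := lt_of_mul_lt_mul_right l (abs_nonneg _)
  zify
  exact this

theorem result :
    (∃ φ : ℤ√3 → ℕ, ∀ a b, b ≠ 0 → ∃ q r, a = b * q + r ∧ φ r < φ b) ∧
    AddSubmonoid.closure (Set.range fun u : (ℤ√3)ˣ => (u : ℤ√3)) = ⊤ ∧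
    ∃ x, apt (ℤ√3) x = 0 ∧ x ∉ Rel (ℤ√3) := by
  refine ⟨⟨fun a => a.norm.natAbs, euc⟩, ?_, ?_⟩
  · have key : ∀ (u : (ℤ√3)ˣ) (n : ℤ), n • (u : ℤ√3) ∈
        AddSubmonoid.closure (Set.range fun u : (ℤ√3)ˣ => (u : ℤ√3)) := fun u n => by
      obtain ⟨k, rfl | rfl⟩ := n.eq_nat_or_neg
      · rw [natCast_zsmul]
        exact AddSubmonoid.nsmul_mem _ (AddSubmonoid.subset_closure (by exact ⟨u, rfl⟩)) k
      · rw [neg_smul, ← smul_neg, natCast_zsmul]
        exact AddSubmonoid.nsmul_mem _ (AddSubmonoid.subset_closure (by exact ⟨-u, rfl⟩)) k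
    refine eq_top_iff.2 fun x _ => ?_
    have := add_mem (key 1 (x.re - 2 * x.im))
      (key ⟨⟨2, 1⟩, ⟨2, -1⟩, by decide, by decide⟩ x.im)
    convert this using 1
    ext <;> simp
    ring
  · let c : FreeAbelianGroup (Bas (ℤ√3)) →+ ℤ :=
      FreeAbelianGroup.lift fun p => s s1 p.1 - s s2 p.1
    have c0 : ∀ p, c (.of p) = s s1 p.1 - s s2 p.1 := fun p => FreeAbelianGroup.lift_apply_of _ p
    have t0 : ∀ p, apt (ℤ√3) (.of p) =
        Finsupp.single (line _ p.1.2) 1 - Finsupp.single (line _ p.1.1) 1 :=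
      fun p => FreeAbelianGroup.lift_apply_of _ p
    have hc : Rel (ℤ√3) ≤ c.ker := by
      refine (AddSubgroup.closure_le _).2 ?_
      rintro _ ((⟨p, q, e, rfl⟩ | ⟨p, q, u, e, rfl⟩) | ⟨p, q, r, e, e', rfl⟩) <;>
        simp only [SetLike.mem_coe, AddMonoidHom.mem_ker, map_add, map_sub, c0]
      · rw [e, s_swap, s_swap]; ring
      · rw [e, s_unit, s_unit]; ring
      · rw [e, e']
        linear_combination s_tri s1 p - s_tri s2 p - same p.2
    have m : IsUnit (-1 : ℤ√3) := isUnit_one.neg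
    let p0 : Bas (ℤ√3) := ⟨((1, 0), (0, 1)), by simp⟩
    let p1 : Bas (ℤ√3) := ⟨((0, 1), (1, ⟨1, 1⟩)), by simp⟩
    let p2 : Bas (ℤ√3) := ⟨((1, ⟨1, 1⟩), (⟨-1, 1⟩, 1)), by
      rw [show (1 : ℤ√3) * 1 - ⟨1, 1⟩ * ⟨-1, 1⟩ = -1 by decide]; exact m⟩
    let p3 : Bas (ℤ√3) := ⟨((⟨-1, 1⟩, 1), (1, 0)), by simp⟩
    refine ⟨.of p0 + .of p1 + .of p2 + .of p3, ?_, fun h => ?_⟩
    · rw [map_add, map_add, map_add, t0, t0, t0, t0]
      simp only [p0, p1, p2, p3]
      abel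
    · have := hc h
      have r : (1 : ℝ) < √3 := Real.lt_sqrt_of_sq_lt (by norm_num)
      have a1 : 0 < s1 ⟨1, 1⟩ := by simp [s1]; linarith
      have a2 : s2 ⟨1, 1⟩ < 0 := by simp [s1, s2, starRingEnd_apply]; linarith
      have d : (1 : ℤ√3) * 1 - ⟨1, 1⟩ * ⟨-1, 1⟩ = -1 := by decide
      rw [AddMonoidHom.mem_ker, map_add, map_add, map_add, c0, c0, c0, c0] at this
      simp only [p0, p1, p2, p3, s, d] at this
      norm_num [ep, sn, a1, a2.not_gt, a2.ne] at this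

end Pool.Agent.Results.MP_b7d0e6_al.Counterexample
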